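import Mathlib

/-!
# Factorizations of the flip graph of pairs into rainbow Hamilton cycles: `n = 5` and `n = 7`

The flip graph of the ten pairs from a set with five elements has exactly `24` rainbow Hamilton
cycles, and no three of them are pairwise edge-disjoint. The flip graph of the `21` pairs from a set
with seven elements has five pairwise edge-disjoint rainbow Hamilton cycles.
-/

open Finset

namespace Pool.Agent.Results.MP_fbee77_co.FiveAndSeven

/-- `c` lists the vertices of a rainbow Hamilton cycle of the flip graph of the `2`-element subsets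
of `Fin n` in cyclic order: the `n.choose 2` sets `c i` are distinct pairs, consecutive ones (also the
last and the first one) differ by one swap, and every pair (transposition) `t` is the colour
`c i ∆ c (i + 1)` of exactly one of the edges. -/
def IsRainbowHamiltonCycle (n : ℕ) (c : ZMod (n.choose 2) → Finset (Fin n)) : Prop :=
  Function.Injective c ∧ (∀ i, (c i).card = 2) ∧
    (∀ i, (c i \ c (i + 1)).card = 1 ∧ (c (i + 1) \ c i).card = 1) ∧
    ∀ t : Finset (Fin n), t.card = 2 → ∃! i, symmDiff (c i) (c (i + 1)) = t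

/-- There are `n - 2` pairwise edge-disjoint rainbow Hamilton cycles. -/
def HasRainbowFactorization (n : ℕ) : Prop :=
  ∃ c : Fin (n - 2) → ZMod (n.choose 2) → Finset (Fin n),
    (∀ k, IsRainbowHamiltonCycle n (c k)) ∧
    ∀ k l, k ≠ l → ∀ i j, s(c k i, c k (i + 1)) ≠ s(c l j, c l (j + 1))

/-- the ten pairs -/
def vtx : Fin 10 → Finset (Fin 5) :=
  ![{0, 1}, {0, 2}, {0, 3}, {0, 4}, {1, 2}, {1, 3}, {1, 4}, {2, 3}, {2, 4}, {3, 4}]

/-- the table of colours, `10` for non-adjacent pairs -/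
def tab : List (List ℕ) :=
  [[10, 4, 5, 6, 1, 2, 3, 10, 10, 10], [4, 10, 7, 8, 0, 10, 10, 2, 3, 10], [5, 7, 10, 9, 10, 0, 10, 1, 10, 3], [6, 8, 9, 10, 10, 10, 0, 10, 1, 2], [1, 0, 10, 10, 10, 7, 8, 5, 6, 10], [2, 10, 0, 10, 7, 10, 9, 4, 10, 6], [3, 10, 10, 0, 8, 9, 10, 10, 4, 5], [10, 2, 1, 10, 5, 4, 10, 10, 9, 8], [10, 3, 10, 1, 6, 10, 4, 9, 10, 7], [10, 10, 3, 2, 10, 6, 5, 8, 7, 10]]

/-- the colour of an edge, `10` for non-adjacent pairs -/
def col (a b : Fin 10) : ℕ := (tab.getD a.val []).getD b.val 10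

/-- a code for unordered pairs of vertices -/
def code (a b : Fin 10) : ℕ := min a.val b.val * 10 + max a.val b.val

/-- the edge sets of the rainbow Hamilton cycles -/
def cyc : List (List ℕ) :=
  [[1, 2, 17, 29, 36, 38, 45, 46, 59, 78],
   [1, 2, 18, 27, 36, 39, 45, 48, 56, 79],
   [1, 3, 17, 25, 29, 38, 46, 47, 56, 89],
   [1, 3, 18, 25, 27, 39, 45, 46, 69, 78],
   [1, 5, 12, 29, 36, 38, 47, 48, 56, 79],
   [1, 5, 13, 27, 29, 36, 45, 48, 69, 78],
   [1, 6, 12, 25, 38, 39, 46, 47, 59, 78],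
   [1, 6, 13, 25, 27, 39, 47, 48, 56, 89],
   [2, 3, 14, 17, 29, 38, 45, 56, 68, 79],
   [2, 3, 14, 18, 27, 39, 46, 56, 57, 89],
   [2, 4, 12, 18, 36, 39, 46, 57, 59, 78],
   [2, 4, 17, 18, 23, 36, 45, 59, 68, 79],
   [2, 6, 12, 14, 38, 39, 48, 56, 57, 79],
   [2, 6, 14, 17, 23, 38, 46, 57, 59, 89],
   [3, 4, 13, 17, 25, 29, 45, 68, 69, 78],
   [3, 4, 17, 18, 23, 25, 46, 57, 69, 89],
   [3, 5, 13, 14, 27, 29, 47, 56, 68, 89],
   [3, 5, 14, 18, 23, 27, 45, 68, 69, 79],
   [4, 5, 12, 13, 29, 36, 47, 59, 68, 78],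
   [4, 5, 12, 18, 23, 36, 48, 57, 69, 79],
   [4, 6, 12, 13, 25, 39, 48, 57, 69, 78],
   [4, 6, 13, 17, 23, 25, 47, 59, 68, 89],
   [5, 6, 12, 14, 23, 38, 47, 59, 68, 79],
   [5, 6, 13, 14, 23, 27, 48, 57, 69, 89]]

/-- the edge set is one of the list -/
def ok (es : List ℕ) : Bool := cyc.any fun m => m.all fun e => es.contains e

/-- depth first search -/
def dfs : ℕ → Fin 10 → List (Fin 10) → List ℕ → List ℕ → Bool
  | 0, last, _, cols, es =>
      (col last 0 == 10) || cols.contains (col last 0) || ok (code last 0 :: es)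
  | k + 1, last, path, cols, es =>
      (List.finRange 10).all fun a =>
        path.contains a || (col last a == 10) || cols.contains (col last a) ||
          dfs k a (a :: path) (col last a :: cols) (code last a :: es)

theorem dfs_true : dfs 9 0 [0] [] [] = true := by decide +kernel

theorem cyc_triple : ∀ m₁ ∈ cyc, ∀ m₂ ∈ cyc, (∃ e ∈ m₁, e ∈ m₂) ∨
    ∀ m₃ ∈ cyc, (∃ e ∈ m₁, e ∈ m₃) ∨ ∃ e ∈ m₂, e ∈ m₃ := by
  decide +kernel

section search

variable (p : ℕ → Fin 10)

/-- vertices of the path, last one first -/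
def pathL : ℕ → List (Fin 10)
  | 0 => [p 0]
  | m + 1 => p (m + 1) :: pathL m

/-- colours of the path -/
def colL : ℕ → List ℕ
  | 0 => []
  | m + 1 => col (p m) (p (m + 1)) :: colL m

/-- edges of the path -/
def esL : ℕ → List ℕ
  | 0 => []
  | m + 1 => code (p m) (p (m + 1)) :: esL m

theorem mem_pathL {x : Fin 10} {m : ℕ} : x ∈ pathL p m ↔ ∃ i ≤ m, p i = x := by
  induction m with
  | zero => simp [pathL, eq_comm]
  | succ m ih =>
    rw [pathL, List.mem_cons, ih]
    constructor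
    · rintro (h | ⟨i, hi, h⟩)
      · exact ⟨m + 1, le_rfl, h.symm⟩
      · exact ⟨i, by omega, h⟩
    · rintro ⟨i, hi, h⟩
      rcases Nat.lt_or_ge i (m + 1) with h1 | h1
      · exact Or.inr ⟨i, by omega, h⟩
      · left; rw [← h, show i = m + 1 by omega]

theorem mem_colL {x : ℕ} {m : ℕ} : x ∈ colL p m ↔ ∃ i < m, col (p i) (p (i + 1)) = x := by
  induction m with
  | zero => simp [colL]
  | succ m ih =>
    rw [colL, List.mem_cons, ih]
    constructor
    · rintro (h | ⟨i, hi, h⟩)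
      · exact ⟨m, by omega, h.symm⟩
      · exact ⟨i, by omega, h⟩
    · rintro ⟨i, hi, h⟩
      rcases Nat.lt_or_ge i m with h1 | h1
      · exact Or.inr ⟨i, by omega, h⟩
      · left; rw [← h, show i = m by omega]

theorem mem_esL {x : ℕ} {m : ℕ} : x ∈ esL p m ↔ ∃ i < m, code (p i) (p (i + 1)) = x := by
  induction m with
  | zero => simp [esL]
  | succ m ih =>
    rw [esL, List.mem_cons, ih]
    constructor
    · rintro (h | ⟨i, hi, h⟩)
      · exact ⟨m, by omega, h.symm⟩
      · exact ⟨i, by omega, h⟩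
    · rintro ⟨i, hi, h⟩
      rcases Nat.lt_or_ge i m with h1 | h1
      · exact Or.inr ⟨i, by omega, h⟩
      · left; rw [← h, show i = m by omega]

theorem dfs_sound (hinj : ∀ i j, i < j → j < 10 → p i ≠ p j)
    (hadj : ∀ i < 10, col (p i) (p (i + 1)) ≠ 10)
    (hcol : ∀ i j, i < j → j < 10 → col (p i) (p (i + 1)) ≠ col (p j) (p (j + 1)))
    (h10 : p 10 = 0) : ∀ k m, m + k = 9 →
    dfs k (p m) (pathL p m) (colL p m) (esL p m) = true → ok (esL p 10) = true := by
  intro k
  induction k with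
  | zero =>
    intro m hm h
    obtain rfl : m = 9 := by omega
    simp only [dfs, Bool.or_eq_true, beq_iff_eq, List.contains_iff_mem] at h
    rcases h with (h | h) | h
    · have := hadj 9 (by omega)
      rw [h10] at this
      exact (this h).elim
    · obtain ⟨i, hi, h1⟩ := (mem_colL p).1 h
      have := hcol i 9 hi (by omega)
      rw [h10] at this
      exact (this h1).elim
    · rw [← h10] at h
      exact h
  | succ k ih =>
    intro m hm h
    simp only [dfs, List.all_eq_true, Bool.or_eq_true, beq_iff_eq, List.contains_iff_mem] at h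
    rcases h (p (m + 1)) (List.mem_finRange _) with ((h | h) | h) | h
    · obtain ⟨i, hi, h1⟩ := (mem_pathL p).1 h
      exact (hinj i (m + 1) (by omega) (by omega) h1).elim
    · exact (hadj m (by omega) h).elim
    · obtain ⟨i, hi, h1⟩ := (mem_colL p).1 h
      exact (hcol i m hi (by omega) h1).elim
    · exact ih (m + 1) (by omega) h

end search

theorem vtx_surj : ∀ A : Finset (Fin 5), A.card = 2 → ∃ a, vtx a = A := by decide +kernel

theorem vtx_inj : Function.Injective vtx := by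
  have : ∀ a b, vtx a = vtx b → a = b := by decide +kernel
  exact fun a b => this a b

theorem col_spec : ∀ a b : Fin 10, (vtx a \ vtx b).card = 1 → (vtx b \ vtx a).card = 1 →
    ∃ t : Fin 10, col a b = t.val ∧ symmDiff (vtx a) (vtx b) = vtx t := by
  decide +kernel

theorem code_spec : ∀ a b a' b' : Fin 10, code a b = code a' b' →
    (a = a' ∧ b = b') ∨ (a = b' ∧ b = a') := by
  intro a b a' b' h
  unfold code at h
  have h1 := a.isLt
  have h2 := b.isLt
  have h3 := a'.isLt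
  have h4 := b'.isLt
  have : (a.val = a'.val ∧ b.val = b'.val) ∨ (a.val = b'.val ∧ b.val = a'.val) := by omega
  rcases this with ⟨h5, h6⟩ | ⟨h5, h6⟩
  · exact Or.inl ⟨Fin.ext h5, Fin.ext h6⟩
  · exact Or.inr ⟨Fin.ext h5, Fin.ext h6⟩

/-- Every rainbow Hamilton cycle has one of the edge sets of the list. -/
theorem exists_cyc (c : ZMod 10 → Finset (Fin 5)) (h1 : Function.Injective c)
    (h2 : ∀ i, (c i).card = 2)
    (h3 : ∀ i, (c i \ c (i + 1)).card = 1 ∧ (c (i + 1) \ c i).card = 1)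
    (h4 : ∀ t : Finset (Fin 5), t.card = 2 → ∃! i, symmDiff (c i) (c (i + 1)) = t) :
    ∃ m ∈ cyc, ∀ e ∈ m, ∃ i a b, c i = vtx a ∧ c (i + 1) = vtx b ∧ code a b = e := by
  choose d hd using fun i => vtx_surj (c i) (h2 i)
  have hdinj : Function.Injective d := by
    intro i j hij
    apply h1
    rw [← hd, ← hd, hij]
  have hdsurj : Function.Surjective d :=
    ((Fintype.bijective_iff_injective_and_card d).2 ⟨hdinj, by simp [ZMod.card]⟩).2
  obtain ⟨i0, hi0⟩ := hdsurj 0
  have hcolS : ∀ i, ∃ t : Fin 10, col (d i) (d (i + 1)) = t.val ∧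
      symmDiff (c i) (c (i + 1)) = vtx t := by
    intro i
    have := col_spec (d i) (d (i + 1)) (by rw [hd, hd]; exact (h3 i).1)
      (by rw [hd, hd]; exact (h3 i).2)
    rwa [hd, hd] at this
  have hcolinj : ∀ i j, col (d i) (d (i + 1)) = col (d j) (d (j + 1)) → i = j := by
    intro i j hij
    obtain ⟨t, ht1, ht2⟩ := hcolS i
    obtain ⟨t', ht1', ht2'⟩ := hcolS j
    have htt : t = t' := Fin.ext (by rw [← ht1, ← ht1', hij])
    have hvt : (vtx t).card = 2 := by
      have : ∀ t, (vtx t).card = 2 := by decide +kernel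
      exact this t
    obtain ⟨i1, -, hu⟩ := h4 (vtx t) hvt
    rw [hu i ht2, hu j (by show symmDiff (c j) (c (j + 1)) = vtx t; rw [ht2', htt])]
  set p : ℕ → Fin 10 := fun n => d (i0 + n) with hp
  have hpn : ∀ n, p (n + 1) = d (i0 + n + 1) := by
    intro n
    simp only [hp]
    push_cast
    rw [add_assoc]
  have hcast : ∀ i j : ℕ, i < j → j < 10 → (i0 + i : ZMod 10) ≠ i0 + j := by
    intro i j hij hj h
    have h5 : ((i : ℕ) : ZMod 10) = (j : ℕ) := add_left_cancel h
    rw [ZMod.natCast_eq_natCast_iff'] at h5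
    omega
  have hok := dfs_sound p
    (fun i j hij hj h => hcast i j hij hj (hdinj h))
    (fun i hi h => by
      rw [hpn] at h
      obtain ⟨t, ht, -⟩ := hcolS (i0 + i)
      have := t.isLt
      have h5 : col (d (i0 + i)) (d (i0 + i + 1)) = 10 := h
      omega)
    (fun i j hij hj h => by
      rw [hpn, hpn] at h
      exact hcast i j hij hj (hcolinj _ _ h))
    (by
      show d (i0 + ((10 : ℕ) : ZMod 10)) = 0
      rw [ZMod.natCast_self, add_zero, hi0]) 9 0 (by omega)
    (by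
      have h0 : p 0 = 0 := by
        show d (i0 + ((0 : ℕ) : ZMod 10)) = 0
        rw [Nat.cast_zero, add_zero, hi0]
      simp only [pathL, colL, esL, h0]
      exact dfs_true)
  unfold ok at hok
  rw [List.any_eq_true] at hok
  obtain ⟨m, hm, hall⟩ := hok
  rw [List.all_eq_true] at hall
  refine ⟨m, hm, ?_⟩
  intro e he
  have h5 := hall e he
  rw [List.contains_iff_mem, mem_esL] at h5
  obtain ⟨i, -, h6⟩ := h5
  rw [hpn] at h6
  exact ⟨i0 + i, _, _, (hd _).symm, (hd _).symm, h6⟩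

theorem not_five : ¬ HasRainbowFactorization 5 := by
  rintro ⟨c, hc, hdis⟩
  have key : ∀ k : Fin 3, ∃ m ∈ cyc, ∀ e ∈ m, ∃ (i : ZMod (Nat.choose 5 2)) (a b : Fin 10),
      c k i = vtx a ∧ c k (i + 1) = vtx b ∧ code a b = e := fun k =>
    exists_cyc (c k) (hc k).1 (hc k).2.1 (hc k).2.2.1 (hc k).2.2.2
  choose m hm hall using key
  have hshare : ∀ k l : Fin 3, k ≠ l → ¬ ∃ e ∈ m k, e ∈ m l := by
    rintro k l hkl ⟨e, he, he'⟩
    obtain ⟨i, a, b, h1, h2, h3⟩ := hall k e he
    obtain ⟨j, a', b', h1', h2', h3'⟩ := hall l e he'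
    apply hdis k l hkl i j
    have h4 : s(vtx a, vtx b) = s(vtx a', vtx b') := by
      rcases code_spec a b a' b' (h3.trans h3'.symm) with ⟨h5, h6⟩ | ⟨h5, h6⟩
      · rw [h5, h6]
      · rw [h5, h6, Sym2.eq_swap]
    rw [← h1, ← h2, ← h1', ← h2'] at h4
    exact h4
  rcases cyc_triple (m 0) (hm 0) (m 1) (hm 1) with h | h
  · exact hshare 0 1 (by decide) h
  · rcases h (m 2) (hm 2) with h | h
    · exact hshare 0 2 (by decide) h
    · exact hshare 1 2 (by decide) h

/-- five rainbow Hamilton cycles for `n = 7`; the pair `{a, b}` is encoded by `7 a + b` -/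
def tab7 : List (List ℕ) :=
  [[1, 2, 20, 34, 27, 26, 17, 19, 5, 33, 11, 12, 41, 6, 4, 25, 18, 9, 13, 10, 3],
   [1, 4, 3, 17, 20, 18, 11, 9, 10, 27, 6, 34, 33, 25, 26, 12, 5, 2, 19, 41, 13],
   [1, 9, 20, 41, 26, 10, 12, 19, 33, 4, 5, 6, 13, 34, 18, 17, 2, 3, 27, 25, 11],
   [1, 5, 26, 19, 18, 33, 41, 27, 17, 9, 2, 4, 34, 11, 10, 25, 3, 6, 20, 13, 12],
   [1, 6, 2, 18, 4, 11, 13, 27, 20, 19, 9, 12, 33, 26, 3, 5, 41, 34, 25, 17, 10]]

/-- entry of the table -/
def ent (k : Fin 5) (i : ZMod 21) : ℕ := (tab7.getD k.val []).getD i.val 0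

/-- the pairs of the table -/
def cyc7 (k : Fin 5) (i : ZMod 21) : Finset (Fin 7) :=
  {Fin.ofNat 7 (ent k i / 7), Fin.ofNat 7 (ent k i % 7)}

theorem seven_inj : ∀ k, (∀ i j, cyc7 k i = cyc7 k j → i = j) := by decide +kernel

theorem seven_step : ∀ k i, (cyc7 k i).card = 2 ∧ (cyc7 k i \ cyc7 k (i + 1)).card = 1 ∧
    (cyc7 k (i + 1) \ cyc7 k i).card = 1 := by decide +kernel

theorem seven_colour : ∀ k : Fin 5, ∀ t : Finset (Fin 7), t.card = 2 →
    ∃ i, symmDiff (cyc7 k i) (cyc7 k (i + 1)) = t := by decide +kernel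

theorem seven_colour' : ∀ k : Fin 5, ∀ i j : ZMod 21,
    symmDiff (cyc7 k i) (cyc7 k (i + 1)) = symmDiff (cyc7 k j) (cyc7 k (j + 1)) → i = j := by
  decide +kernel

theorem seven_disjoint : ∀ k l, k ≠ l → ∀ i j,
    s(cyc7 k i, cyc7 k (i + 1)) ≠ s(cyc7 l j, cyc7 l (j + 1)) := by decide +kernel

theorem seven_main : ∃ c : Fin 5 → ZMod 21 → Finset (Fin 7),
    (∀ k, Function.Injective (c k) ∧ (∀ i, (c k i).card = 2) ∧
      (∀ i, (c k i \ c k (i + 1)).card = 1 ∧ (c k (i + 1) \ c k i).card = 1) ∧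
      ∀ t : Finset (Fin 7), t.card = 2 → ∃! i, symmDiff (c k i) (c k (i + 1)) = t) ∧
    ∀ k l, k ≠ l → ∀ i j, s(c k i, c k (i + 1)) ≠ s(c l j, c l (j + 1)) := by
  refine ⟨cyc7, fun k => ⟨fun i j h => seven_inj k i j h, fun i => (seven_step k i).1,
    fun i => (seven_step k i).2, ?_⟩, seven_disjoint⟩
  intro t ht
  obtain ⟨i, hi⟩ := seven_colour k t ht
  refine ⟨i, hi, ?_⟩
  intro j hj
  exact seven_colour' k j i (hj.trans hi.symm)

/-- **Theorem.** The edge set of the flip graph `G_{5,2}` has no partition into three rainbow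
Hamilton cycles, and that of `G_{7,2}` has a partition into five rainbow Hamilton cycles. -/
theorem result : ¬ HasRainbowFactorization 5 ∧ HasRainbowFactorization 7 :=
  ⟨not_five, seven_main⟩

end Pool.Agent.Results.MP_fbee77_co.FiveAndSeven
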